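import Pool.Agent.Q19.HO.Stm

/-!
# Derivations of the Hermitian octonion matrices (HO-DOP)
-/

set_option autoImplicit false

namespace Pool.Agent.Q176.HO.DOP

open Pool.Agent.Q19.HO Matrix

variable {K : Type} [Field K] {n : ℕ}

lemma re_mul (a : Matrix (Fin n) (Fin n) K) (X : Mat n K) (i j : Fin n) :
    (re a * X) i j = ∑ k, a i k • X k j := by
  rw [Matrix.mul_apply]
  exact Finset.sum_congr rfl fun k _ => by rw [re, Q19.HO.smul_mul', one_mul]

lemma mul_re (X : Mat n K) (a : Matrix (Fin n) (Fin n) K) (i j : Fin n) :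
    (X * re a) i j = ∑ k, a k j • X i k := by
  rw [Matrix.mul_apply]
  exact Finset.sum_congr rfl fun k _ => by rw [re, mul_smul', mul_one]

lemma assoc1 (a : Matrix (Fin n) (Fin n) K) (X Y : Mat n K) :
    (re a * X) * Y = re a * (X * Y) := by
  ext1 i j
  rw [re_mul, Matrix.mul_apply]
  simp_rw [re_mul, Matrix.mul_apply, Finset.sum_mul, Finset.smul_sum, Q19.HO.smul_mul']
  exact Finset.sum_comm

lemma assoc2 (a : Matrix (Fin n) (Fin n) K) (X Y : Mat n K) :
    (X * re a) * Y = X * (re a * Y) := by
  ext1 i j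
  rw [Matrix.mul_apply, Matrix.mul_apply]
  simp_rw [re_mul, mul_re, Finset.sum_mul, Finset.mul_sum, Q19.HO.smul_mul', mul_smul']
  exact Finset.sum_comm

lemma assoc3 (a : Matrix (Fin n) (Fin n) K) (X Y : Mat n K) :
    (X * Y) * re a = X * (Y * re a) := by
  ext1 i j
  rw [mul_re, Matrix.mul_apply]
  simp_rw [mul_re, Matrix.mul_apply, Finset.mul_sum, Finset.smul_sum, mul_smul']
  exact Finset.sum_comm

/-- the inner map -/
noncomputable def inn (a : Matrix (Fin n) (Fin n) K) : Mat n K →ₗ[K] Mat n K where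
  toFun X := re a * X - X * re a
  map_add' X Y := by
    rw [mul_add, add_mul]
    abel
  map_smul' r X := by
    rw [Matrix.mul_smul, Matrix.smul_mul, RingHom.id_apply, smul_sub]

lemma inn_mem (a : Matrix (Fin n) (Fin n) K) (ha : aᵀ = -a) (X : Mat n K) (hX : X ∈ SymP n K) :
    inn a X ∈ SymP n K := by
  have ha' : ∀ i j, a j i = -a i j := fun i j => by
    have := congrFun (congrFun ha i) j
    simpa using this
  intro i j
  have hX' : ∀ i j, star (X j i) = X i j := hX
  change star ((re a * X) j i - (X * re a) j i) = (re a * X) i j - (X * re a) i j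
  rw [re_mul, mul_re, re_mul, mul_re, star_sub, star_sum, star_sum]
  simp_rw [star_smul', hX', ha' _ j, ha' i _, neg_smul, Finset.sum_neg_distrib]
  abel

lemma map_mul_der (d : Oct K →ₗ[K] Oct K) (hd : IsDerO d) (X Y : Mat n K) :
    (X * Y).map d = X.map d * Y + X * Y.map d := by
  ext1 i j
  rw [Matrix.map_apply, Matrix.add_apply, Matrix.mul_apply, Matrix.mul_apply, Matrix.mul_apply,
    map_sum, ← Finset.sum_add_distrib]
  exact Finset.sum_congr rfl fun k _ => by rw [hd, Matrix.map_apply, Matrix.map_apply]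

theorem t (h : S_TST) : Pool.Agent.Q19.HO.S_DOP := by
  intro K _ n h2
  obtain ⟨-, hT⟩ := h K h2
  refine ⟨?_, ?_⟩
  · intro d hd
    obtain ⟨-, hs⟩ := hT d hd
    have hmem : ∀ X ∈ SymP n K, d.mapMatrix X ∈ SymP n K := by
      intro X hX i j
      have hX' : ∀ i j, star (X j i) = X i j := hX
      change star (d (X j i)) = d (X i j)
      rw [← hs, hX']
    refine ⟨d.mapMatrix.restrict hmem, ?_, fun X => rfl⟩
    intro X Y Z hZ
    change jp ((X : Mat n K).map d) Y + jp (X : Mat n K) ((Y : Mat n K).map d) =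
      (Z : Mat n K).map d
    have hadd : ∀ A B : Mat n K, (A + B).map d = A.map d + B.map d := fun A B =>
      map_add d.mapMatrix A B
    have hsm : ∀ (r : K) (A : Mat n K), (r • A).map d = r • A.map d := fun r A =>
      map_smul d.mapMatrix r A
    rw [← hZ]
    unfold jp
    rw [hsm, hadd, map_mul_der d hd, map_mul_der d hd, ← smul_add]
    congr 1
    abel
  · intro a ha
    refine ⟨(inn a).restrict (inn_mem a ha), ?_, fun X => rfl⟩
    intro X Y Z hZ
    have key : ∀ A B : Mat n K, inn a (A * B) = inn a A * B + A * inn a B := by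
      intro A B
      change re a * (A * B) - A * B * re a =
        (re a * A - A * re a) * B + A * (re a * B - B * re a)
      rw [sub_mul, mul_sub, assoc1, assoc2, assoc3]
      abel
    change jp (inn a (X : Mat n K)) Y + jp (X : Mat n K) (inn a (Y : Mat n K)) = inn a (Z : Mat n K)
    rw [← hZ]
    unfold jp
    rw [map_smul, map_add, key, key, ← smul_add]
    congr 1
    abel

end Pool.Agent.Q176.HO.DOP
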